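import Mathlib
import Pool.Agent.Helper57.Cut.Geo

/-!
# Uniform local contraction on a surface
-/

set_option autoImplicit false

open Set Metric
open scoped ENNReal NNReal unitInterval Topology

universe u

namespace Pool.Agent.Helper39.Cut

open Pool.Agent.Helper57.Cut

/-- variation of a convex combination -/
lemma evar_combo {f g : I → ℂ} (t : I) :
    eVariationOn (fun s => (1 - (t : ℝ)) • f s + (t : ℝ) • g s) univ ≤
      ENNReal.ofReal (1 - (t : ℝ)) * eVariationOn f univ +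
        ENNReal.ofReal (t : ℝ) * eVariationOn g univ := by
  have ht0 : (0 : ℝ) ≤ t := t.2.1
  have ht1 : (0 : ℝ) ≤ 1 - t := sub_nonneg.2 t.2.2
  have hed : ∀ x y : I, edist ((1 - (t : ℝ)) • f x + (t : ℝ) • g x)
      ((1 - (t : ℝ)) • f y + (t : ℝ) • g y) ≤
      ENNReal.ofReal (1 - (t : ℝ)) * edist (f x) (f y) +
        ENNReal.ofReal (t : ℝ) * edist (g x) (g y) := by
    intro x y
    refine le_trans (edist_add_add_le _ _ _ _) ?_
    refine add_le_add ?_ ?_
    · rw [edist_smul₀, Real.nnnorm_of_nonneg ht1, ENNReal.smul_def, smul_eq_mul]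
      refine mul_le_mul' ?_ le_rfl
      rw [ENNReal.ofReal, Real.toNNReal_of_nonneg ht1]
    · rw [edist_smul₀, Real.nnnorm_of_nonneg ht0, ENNReal.smul_def, smul_eq_mul]
      refine mul_le_mul' ?_ le_rfl
      rw [ENNReal.ofReal, Real.toNNReal_of_nonneg ht0]
  refine iSup_le ?_
  rintro ⟨n, ⟨u, hu, us⟩⟩
  calc _ ≤ ∑ i ∈ Finset.range n, (ENNReal.ofReal (1 - (t : ℝ)) * edist (f (u (i + 1))) (f (u i)) +
        ENNReal.ofReal (t : ℝ) * edist (g (u (i + 1))) (g (u i))) :=
        Finset.sum_le_sum (fun i _ => hed _ _)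
    _ = ENNReal.ofReal (1 - (t : ℝ)) * ∑ i ∈ Finset.range n, edist (f (u (i + 1))) (f (u i)) +
        ENNReal.ofReal (t : ℝ) * ∑ i ∈ Finset.range n, edist (g (u (i + 1))) (g (u i)) := by
        rw [Finset.sum_add_distrib, Finset.mul_sum, Finset.mul_sum]
    _ ≤ _ := add_le_add (mul_le_mul' le_rfl (eVariationOn.sum_le hu us))
        (mul_le_mul' le_rfl (eVariationOn.sum_le hu us))

theorem tame_stmt : TameStmt.{u} := by
  classical
  intro M _ hS K hK
  obtain ⟨Φ, r, hr, hbi, hsurj, -⟩ := hS.chart (11 / 10) (by norm_num)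
  choose s hs0 hs using hsurj
  set C : ℝ := 11 / 10 with hC
  set ρ : M → ℝ := fun x => min (r x) (s x / C) with hρ
  have hρ0 : ∀ x, 0 < ρ x := fun x => lt_min (hr x) (div_pos (hs0 x) (by norm_num))
  obtain ⟨δ, hδ, hleb⟩ := lebesgue_number_lemma_of_metric hK (c := fun x : M => ball x (ρ x))
    (fun x => isOpen_ball) (fun x _ => mem_iUnion.2 ⟨x, mem_ball_self (hρ0 x)⟩)
  refine ⟨δ, hδ, hS.length, ?_⟩
  intro x0 hx0 a b p q hp hq
  obtain ⟨x, hx⟩ := hleb x0 hx0
  have hpx : ∀ t, p t ∈ ball x (ρ x) := fun t => hx (hp t)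
  have hqx : ∀ t, q t ∈ ball x (ρ x) := fun t => hx (hq t)
  have hsub : ball x (ρ x) ⊆ ball x (r x) := ball_subset_ball (min_le_left _ _)
  have hxr : x ∈ ball x (r x) := mem_ball_self (hr x)
  have hΦs : ∀ y ∈ ball x (ρ x), Φ x y ∈ ball (Φ x x) (s x) := by
    intro y hy
    rw [mem_ball]
    have h1 := (hbi x y (hsub hy) x hxr).1
    have h2 : dist y x < s x / C := lt_of_lt_of_le (mem_ball.1 hy) (min_le_right _ _)
    have hCpos : 0 < C := by norm_num
    rw [lt_div_iff₀ hCpos] at h2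
    linarith
  -- the inverse
  set g : ℂ → M := fun z => if h : z ∈ ball (Φ x x) (s x) then (hs x h).choose else x with hg
  have hg1 : ∀ z ∈ ball (Φ x x) (s x), g z ∈ ball x (r x) ∧ Φ x (g z) = z := by
    intro z hz
    simp only [hg]
    rw [dif_pos hz]
    exact (hs x hz).choose_spec
  have hg2 : ∀ y ∈ ball x (ρ x), g (Φ x y) = y := by
    intro y hy
    obtain ⟨h1, h2⟩ := hg1 _ (hΦs y hy)
    have h3 := (hbi x _ h1 y (hsub hy)).2
    rw [h2, dist_self, mul_zero] at h3
    exact dist_le_zero.1 h3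
  have hgL : LipschitzOnWith (11 / 10 : ℝ≥0) g (ball (Φ x x) (s x)) := by
    apply LipschitzOnWith.of_dist_le_mul
    intro z hz w hw
    obtain ⟨h1, h2⟩ := hg1 z hz
    obtain ⟨h3, h4⟩ := hg1 w hw
    have h5 := (hbi x _ h1 _ h3).2
    rw [h2, h4] at h5
    have : ((11 / 10 : ℝ≥0) : ℝ) = C := by rw [hC]; push_cast; rfl
    rw [this]; exact h5
  have hΦL : LipschitzOnWith (11 / 10 : ℝ≥0) (Φ x) (ball x (ρ x)) := by
    apply LipschitzOnWith.of_dist_le_mul
    intro y hy z hz
    have h5 := (hbi x _ (hsub hy) _ (hsub hz)).1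
    have : ((11 / 10 : ℝ≥0) : ℝ) = C := by rw [hC]; push_cast; rfl
    rw [this]; exact h5
  have hcp : Continuous (fun t : I => Φ x (p t)) := by
    rw [← continuousOn_univ]
    exact hΦL.continuousOn.comp p.continuous.continuousOn (fun t _ => hpx t)
  have hcq : Continuous (fun t : I => Φ x (q t)) := by
    rw [← continuousOn_univ]
    exact hΦL.continuousOn.comp q.continuous.continuousOn (fun t _ => hqx t)
  set A : I × I → ℂ := fun ts => (1 - (ts.1 : ℝ)) • Φ x (p ts.2) + (ts.1 : ℝ) • Φ x (q ts.2)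
    with hA
  have hAc : Continuous A := by
    simp only [hA]
    have h1 : Continuous (fun ts : I × I => (ts.1 : ℝ)) := continuous_subtype_val.comp continuous_fst
    exact ((continuous_const.sub h1).smul (hcp.comp continuous_snd)).add
      (h1.smul (hcq.comp continuous_snd))
  have hAb : ∀ ts, A ts ∈ ball (Φ x x) (s x) := by
    intro ts
    have := convex_ball (Φ x x) (s x)
    exact this (hΦs _ (hpx ts.2)) (hΦs _ (hqx ts.2)) (sub_nonneg.2 ts.1.2.2) ts.1.2.1 (by ring)
  have hFc : Continuous (fun ts => g (A ts)) := by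
    rw [← continuousOn_univ]
    exact hgL.continuousOn.comp hAc.continuousOn (fun ts _ => hAb ts)
  refine ⟨⟨⟨⟨fun ts => g (A ts), hFc⟩, ?_, ?_⟩, ?_⟩, ?_⟩
  · intro t
    show g (A (0, t)) = p t
    simp only [hA, Set.Icc.coe_zero, sub_zero, one_smul, zero_smul, add_zero]
    exact hg2 _ (hpx t)
  · intro t
    show g (A (1, t)) = q t
    simp only [hA, Set.Icc.coe_one, sub_self, one_smul, zero_smul, zero_add]
    exact hg2 _ (hqx t)
  · intro t y hy
    show g (A (t, y)) = p y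
    have h1 : p y = q y := by
      rcases hy with hy | hy
      · rw [hy, p.source, q.source]
      · rw [mem_singleton_iff.1 hy, p.target, q.target]
    have h2 : A (t, y) = Φ x (p y) := by
      simp only [hA]
      rw [← h1, ← add_smul, sub_add_cancel, one_smul]
    rw [h2]
    exact hg2 _ (hpx y)
  · intro t
    show eVariationOn (fun s => g (A (t, s))) univ ≤ 3 / 2 * max (len p) (len q)
    have e1 : eVariationOn (g ∘ (fun s => A (t, s))) univ ≤
        ((11 / 10 : ℝ≥0) : ℝ≥0∞) * eVariationOn (fun s => A (t, s)) univ :=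
      hgL.comp_eVariationOn_le (fun s _ => hAb (t, s))
    have e2 := evar_combo (f := fun s => Φ x (p s)) (g := fun s => Φ x (q s)) t
    have e3 : eVariationOn (fun s => Φ x (p s)) univ ≤ ((11 / 10 : ℝ≥0) : ℝ≥0∞) * len p :=
      hΦL.comp_eVariationOn_le (fun s _ => hpx s)
    have e4 : eVariationOn (fun s => Φ x (q s)) univ ≤ ((11 / 10 : ℝ≥0) : ℝ≥0∞) * len q :=
      hΦL.comp_eVariationOn_le (fun s _ => hqx s)
    set m := max (len p) (len q) with hm
    have e5 : ENNReal.ofReal (1 - (t : ℝ)) * eVariationOn (fun s => Φ x (p s)) univ +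
        ENNReal.ofReal (t : ℝ) * eVariationOn (fun s => Φ x (q s)) univ ≤
        ((11 / 10 : ℝ≥0) : ℝ≥0∞) * m := by
      calc _ ≤ ENNReal.ofReal (1 - (t : ℝ)) * (((11 / 10 : ℝ≥0) : ℝ≥0∞) * m) +
            ENNReal.ofReal (t : ℝ) * (((11 / 10 : ℝ≥0) : ℝ≥0∞) * m) :=
            add_le_add
              (mul_le_mul' le_rfl (e3.trans (mul_le_mul' le_rfl (le_max_left _ _))))
              (mul_le_mul' le_rfl (e4.trans (mul_le_mul' le_rfl (le_max_right _ _))))
        _ = (ENNReal.ofReal (1 - (t : ℝ)) + ENNReal.ofReal (t : ℝ)) *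
            (((11 / 10 : ℝ≥0) : ℝ≥0∞) * m) := by rw [add_mul]
        _ = _ := by
            rw [← ENNReal.ofReal_add (sub_nonneg.2 t.2.2) t.2.1, sub_add_cancel,
              ENNReal.ofReal_one, one_mul]
    calc eVariationOn (fun s => g (A (t, s))) univ
        ≤ ((11 / 10 : ℝ≥0) : ℝ≥0∞) * eVariationOn (fun s => A (t, s)) univ := e1
      _ ≤ ((11 / 10 : ℝ≥0) : ℝ≥0∞) * (((11 / 10 : ℝ≥0) : ℝ≥0∞) * m) :=
          mul_le_mul' le_rfl (e2.trans e5)
      _ = (((11 / 10 : ℝ≥0) * (11 / 10 : ℝ≥0) : ℝ≥0) : ℝ≥0∞) * m := by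
          rw [← mul_assoc, ← ENNReal.coe_mul]
      _ ≤ 3 / 2 * m := by
          refine mul_le_mul' ?_ le_rfl
          have h32 : (3 / 2 : ℝ≥0∞) = ((3 / 2 : ℝ≥0) : ℝ≥0∞) := by
            rw [ENNReal.coe_div (by norm_num)]
            norm_num
          rw [h32]
          apply ENNReal.coe_le_coe.2
          rw [← NNReal.coe_le_coe]
          push_cast
          norm_num

end Pool.Agent.Helper39.Cut
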